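import Pool.Agent.Helper1_RL.Stmts

/-!
# GBD: bounds for the metrics `g j` (helper65, squad RLA, MP_62da59_gt)
-/

noncomputable section

open scoped ContDiff Topology ENNReal RealInnerProductSpace
set_option maxSynthPendingDepth 3
open Set Metric

namespace Pool.Agent.RLim.H65

open Pool.Agent.RF

theorem JJ_smul (c : ℝ) (X : E4) : JJ (c • X) = c • JJ X := by
  ext i
  fin_cases i <;> simp [JJ]

/-- the derivative of the Hopf map is homogeneous of degree `-1` -/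
theorem hopf_scale (hH : HopfStmt) {w : ℝ} (hw : 0 < w) {Z : E4} (hZ : Z ≠ 0) (V : E4) :
    ‖fderiv ℝ hopf (w⁻¹ • Z) V‖ ^ 2 = (w * ‖fderiv ℝ hopf Z V‖) ^ 2 := by
  have hY : w⁻¹ • Z ≠ 0 := smul_ne_zero (inv_ne_zero hw.ne') hZ
  have h1 := hH.2 Z hZ V
  have h2 := hH.2 _ hY V
  rw [JJ_smul, inner_smul_left, inner_smul_left, norm_smul, Real.norm_of_nonneg (by positivity)]
    at h2
  simp only [conj_trivial] at h2
  have hZ4 : 0 < ‖Z‖ ^ 4 := by positivity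
  have h3 : ‖fderiv ℝ hopf (w⁻¹ • Z) V‖ ^ 2 * ‖Z‖ ^ 4 = w ^ 2 * (‖fderiv ℝ hopf Z V‖ ^ 2 * ‖Z‖ ^ 4) := by
    rw [h1]
    have h4 : ‖fderiv ℝ hopf (w⁻¹ • Z) V‖ ^ 2 * ‖Z‖ ^ 4
        = w ^ 4 * (‖fderiv ℝ hopf (w⁻¹ • Z) V‖ ^ 2 * (w⁻¹ * ‖Z‖) ^ 4) := by
      field_simp
    rw [h4, h2]
    field_simp
  have h5 : (‖fderiv ℝ hopf (w⁻¹ • Z) V‖ ^ 2 - (w * ‖fderiv ℝ hopf Z V‖) ^ 2) * ‖Z‖ ^ 4 = 0 := by
    linear_combination h3
  rcases mul_eq_zero.1 h5 with h | h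
  · linarith
  · exact absurd h hZ4.ne'

theorem hopf_le (hH : HopfStmt) {Z : E4} (hZ : Z ≠ 0) (V : E4) :
    ‖fderiv ℝ hopf Z V‖ ^ 2 * ‖Z‖ ^ 2 ≤ 4 * ‖V‖ ^ 2 := by
  have h1 := hH.2 Z hZ V
  have hZ2 : 0 < ‖Z‖ ^ 2 := by positivity
  have h2 : ‖fderiv ℝ hopf Z V‖ ^ 2 * ‖Z‖ ^ 2 * ‖Z‖ ^ 2 ≤ 4 * ‖V‖ ^ 2 * ‖Z‖ ^ 2 := by
    nlinarith [sq_nonneg ⟪Z, V⟫, sq_nonneg ⟪JJ Z, V⟫]
  exact le_of_mul_le_mul_right h2 hZ2

theorem w_pos (D : GData) (k : ℕ) : 0 < D.w k := by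
  have h1 := D.L_ge k
  exact div_pos (D.s_pos k) (by linarith)

theorem w_lt (D : GData) (k : ℕ) : D.w k < D.s k := by
  have h1 := D.L_ge k
  have h2 := D.s_pos k
  unfold GData.w
  rw [div_lt_iff₀ (by linarith)]
  nlinarith

/-- GBD -/
theorem gbd (hG : GloStmt) (hH : HopfStmt) (hB : BgRicStmt) : GbdStmt := by
  intro D
  have hr := D.r_pos
  have hc0 := D.c0_pos
  have hc1 := D.c1_pos
  have hr0 : 0 < (D.r / 4) ^ 2 := by positivity
  have hball : ∀ j, ∀ k < j, ∀ X, ‖X - D.P k‖ < D.s k →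
      D.g j X = D.G j k ((D.w k)⁻¹ • (X - D.P k)) := fun j => (hG D j).1
  have hout : ∀ j X, (∀ k < j, D.s k ≤ ‖X - D.P k‖) → D.g j X = bg D.r (D.dlt j) X := by
    intro j X h
    refine (hG D j).2 X fun k hk => ?_
    have := D.s_pos k
    linarith [h k hk]
  have hY : ∀ k X, X ≠ D.P k → (D.w k)⁻¹ • (X - D.P k) ≠ 0 := fun k X h =>
    smul_ne_zero (inv_ne_zero (w_pos D k).ne') (sub_ne_zero.2 h)
  have hYn : ∀ k X, ‖(D.w k)⁻¹ • (X - D.P k)‖ = ‖X - D.P k‖ / D.w k := by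
    intro k X
    rw [norm_smul, norm_inv, Real.norm_of_nonneg (w_pos D k).le]
    ring
  set c : ℝ := min D.c0 ((D.r / 4) ^ 2) with hcdef
  have hc : 0 < c := lt_min hc0 hr0
  have low : ∀ j, ∀ X ∈ D.Dom j, ∀ V, c * ‖V‖ ^ 2 ≤ D.g j X V V := by
    intro j X hX V
    by_cases h : ∃ k < j, ‖X - D.P k‖ < D.s k
    · obtain ⟨k, hk, hkX⟩ := h
      rw [hball j k hk X hkX]
      refine le_trans ?_ (D.low j k hk _ (hY k X (hX k hk)) V)
      exact mul_le_mul_of_nonneg_right (min_le_left _ _) (sq_nonneg _)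
    · push Not at h
      rw [hout j X h]
      refine le_trans ?_ ((hB D.r (D.dlt j) hr D.r_lt (D.dlt_pos j)).2.2 X V).1
      exact mul_le_mul_of_nonneg_right (min_le_right _ _) (sq_nonneg _)
  refine ⟨c, min D.c1 c, max D.C0 1, hc, lt_min hc1 hc, fun j => ⟨low j, ?_, ?_, ?_⟩⟩
  · intro k hk X hX V
    have hXk : X - D.P k ≠ 0 := sub_ne_zero.2 (hX k hk)
    by_cases h : ‖X - D.P k‖ < D.s k
    · rw [hball j k hk X h, ← hopf_scale hH (w_pos D k) hXk V]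
      refine le_trans ?_ (D.lowv j k hk _ (hY k X (hX k hk)) V)
      exact mul_le_mul_of_nonneg_right (min_le_left _ _) (sq_nonneg _)
    · push Not at h
      refine le_trans ?_ (low j X hX V)
      have h1 := hopf_le hH hXk V
      have hs := D.s_pos k
      have hL := D.L_ge k
      have h2 : ‖fderiv ℝ hopf (X - D.P k) V‖ ^ 2 * D.s k ^ 2 ≤ 4 * ‖V‖ ^ 2 := by
        refine le_trans ?_ h1
        exact mul_le_mul_of_nonneg_left (pow_le_pow_left₀ hs.le h 2) (sq_nonneg _)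
      have h3 : (D.w k * ‖fderiv ℝ hopf (X - D.P k) V‖) ^ 2 ≤ ‖V‖ ^ 2 := by
        have h4 : D.w k = D.s k / D.L k := rfl
        have h5 : (D.w k * ‖fderiv ℝ hopf (X - D.P k) V‖) ^ 2
            = ‖fderiv ℝ hopf (X - D.P k) V‖ ^ 2 * D.s k ^ 2 / D.L k ^ 2 := by
          rw [h4]; ring
        rw [h5, div_le_iff₀ (by positivity)]
        have h6 : (4:ℝ) ≤ D.L k ^ 2 := by nlinarith
        nlinarith [sq_nonneg ‖V‖]
      calc min D.c1 c * (D.w k * ‖fderiv ℝ hopf (X - D.P k) V‖) ^ 2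
          ≤ c * (D.w k * ‖fderiv ℝ hopf (X - D.P k) V‖) ^ 2 :=
            mul_le_mul_of_nonneg_right (min_le_right _ _) (sq_nonneg _)
        _ ≤ c * ‖V‖ ^ 2 := mul_le_mul_of_nonneg_left h3 hc.le
  · intro X hX V
    by_cases h : ∃ k < j, ‖X - D.P k‖ < D.s k
    · obtain ⟨k, hk, hkX⟩ := h
      rw [hball j k hk X hkX]
      refine (D.up j k hk _ ?_ V).trans ?_
      · rw [hYn, le_div_iff₀ (w_pos D k), one_mul]
        exact hX k hk
      · exact mul_le_mul_of_nonneg_right (le_max_left _ _) (sq_nonneg _)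
    · push Not at h
      rw [hout j X h]
      refine ((hB D.r (D.dlt j) hr D.r_lt (D.dlt_pos j)).2.2 X V).2.trans ?_
      have : (1:ℝ) ≤ max D.C0 1 := le_max_right _ _
      nlinarith [sq_nonneg ‖V‖]
  · intro k hk X hXk hX V
    rw [hball j k hk X (hX.trans_lt (w_lt D k)), ← hopf_scale hH (w_pos D k) (sub_ne_zero.2 hXk) V]
    refine (D.upv j k hk _ (hY k X hXk) ?_ V).trans ?_
    · rw [hYn, div_le_iff₀ (w_pos D k), one_mul]
      exact hX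
    · exact mul_le_mul_of_nonneg_right (le_max_left _ _) (by positivity)

end Pool.Agent.RLim.H65
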